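import Pool.Agent.Lib.MP_e5d0a4_an.Limit
import Pool.Agent.Lib.MP_e5d0a4_an.Frostman

/-!
# Interior of dilated sumsets below dimension `2 / n`
-/

namespace Pool.Agent.Results.MP_e5d0a4_an.DilatedSumsets

open Pool.Agent.Lib.MP_e5d0a4_an
open Finset

/-- The dilated sumset `A + t₂ A + ⋯ + tₙ A`. -/
def dilatedSumset (n : ℕ) (t : ℕ → ℝ) (A : Set ℝ) : Set ℝ :=
  {x : ℝ | ∃ a : ℕ → ℝ, (∀ i, a i ∈ A) ∧ x = a 1 + ∑ i ∈ Finset.Icc 2 n, t i * a i}

/-- reindexing of the dilated sum -/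
lemma sum_Icc_eq (m : ℕ) (f : ℕ → ℝ) :
    ∑ i ∈ Finset.Icc 2 (m + 2), f i = f 2 + ∑ j : Fin m, f (j + 3) := by
  induction m with
  | zero => simp
  | succ m ih =>
    rw [Fin.sum_univ_castSucc, ← add_assoc]
    have h1 : Finset.Icc 2 (m + 1 + 2) = insert (m + 1 + 2) (Finset.Icc 2 (m + 2)) := by
      ext i
      simp only [Finset.mem_Icc, Finset.mem_insert]
      omega
    rw [h1, Finset.sum_insert (by simp), ih]
    simp only [Fin.val_castSucc, Fin.val_last]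
    have h2 : m + 1 + 2 = m + 3 := by omega
    rw [h2]
    ring

/-- some unit interval carries the dimension -/
lemma exists_unit_piece {A : Set ℝ} {s : ENNReal} (h : s < dimH A) :
    ∃ z : ℤ, s < dimH (A ∩ Set.Ico (z : ℝ) (z + 1)) := by
  have h1 : A = ⋃ z : ℤ, A ∩ Set.Ico (z : ℝ) (z + 1) := by
    ext x
    simp only [Set.mem_iUnion, Set.mem_inter_iff, Set.mem_Ico]
    constructor
    · intro hx
      exact ⟨⌊x⌋, hx, Int.floor_le x, Int.lt_floor_add_one x⟩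
    · rintro ⟨_, hx, _⟩
      exact hx
  rw [h1, dimH_iUnion] at h
  exact lt_iSup_iff.1 h

/-- **Main theorem.** For every `n ≥ 3`, every Borel set `A ⊆ ℝ` with
`dim_H A > 2 / n - 1 / (18000 n²)` has a dilated sumset `A + t₂ A + ⋯ + tₙ A` containing a nonempty
open interval. -/
theorem result : ∀ n : ℕ, 3 ≤ n → ∀ A : Set ℝ, MeasurableSet A →
    ENNReal.ofReal (2 / (n : ℝ) - 1 / (18000 * (n : ℝ) ^ 2)) < dimH A →
    ∃ t : ℕ → ℝ, ∃ c d : ℝ, c < d ∧ Set.Ioo c d ⊆ dilatedSumset n t A := by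
  intro n hn A hA hdim
  have hn3 : (3 : ℝ) ≤ n := by exact_mod_cast hn
  have hnpos : (0 : ℝ) < n := by linarith
  set s : ℝ := 2 / (n : ℝ) - 1 / (18000 * (n : ℝ) ^ 2) with hs
  -- elementary inequalities for `s`
  have hns : (n : ℝ) * s = 2 - 1 / (18000 * n) := by
    rw [hs]
    field_simp
  have hinv : 1 / (18000 * (n : ℝ)) ≤ 1 / 54000 :=
    one_div_le_one_div_of_le (by norm_num) (by linarith)
  have hinv0 : 0 < 1 / (18000 * (n : ℝ)) := by positivity
  have hsn : 1 / (n : ℝ) ≤ s := by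
    rw [div_le_iff₀ hnpos, mul_comm, hns]
    linarith
  have hs0 : 0 < s := lt_of_lt_of_le (by positivity) hsn
  have hs23 : s ≤ 2 / 3 := by
    have h1 : s ≤ 2 / n := by
      rw [hs]
      have : 0 < 1 / (18000 * (n : ℝ) ^ 2) := by positivity
      linarith
    refine h1.trans ?_
    rw [div_le_div_iff₀ hnpos (by norm_num)]
    linarith
  have hs1 : s < 1 := by linarith
  have heps : 1 / (18000 * (n : ℝ)) ≤ eps0 s / 2 := by
    unfold eps0
    have h1 : (1 : ℝ) / 9 ≤ (1 - s) ^ 2 := by nlinarith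
    have h2 : 1 / (n : ℝ) * (1 / 9) ≤ s * (1 - s) ^ 2 :=
      mul_le_mul hsn h1 (by norm_num) hs0.le
    have h3 : 1 / (18000 * (n : ℝ)) = (1 / (n : ℝ) * (1 / 9)) / 1000 / 2 := by
      field_simp
      norm_num
    rw [h3]
    linarith
  -- a unit piece, translated to `[0, 1)`
  obtain ⟨z, hz⟩ := exists_unit_piece hdim
  set A' : Set ℝ := {x | x ∈ Set.Ico (0 : ℝ) 1 ∧ x + z ∈ A} with hA'
  have hA'm : MeasurableSet A' :=
    measurableSet_Ico.inter ((measurable_id.add_const (z : ℝ)) hA)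
  have hA'01 : A' ⊆ Set.Ico 0 1 := fun x hx => hx.1
  have himg : A ∩ Set.Ico (z : ℝ) (z + 1) = (fun x : ℝ => x + z) '' A' := by
    ext x
    simp only [Set.mem_inter_iff, Set.mem_Ico, Set.mem_image, hA', Set.mem_ofPred_eq]
    constructor
    · rintro ⟨hxA, h1, h2⟩
      exact ⟨x - z, ⟨⟨by linarith, by linarith⟩, by simpa using hxA⟩, by ring⟩
    · rintro ⟨y, ⟨⟨h1, h2⟩, hy⟩, rfl⟩
      exact ⟨hy, by linarith, by linarith⟩
  have hiso : Isometry (fun x : ℝ => x + z) := isometry_add_right (z : ℝ)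
  rw [himg, hiso.dimH_image] at hz
  obtain ⟨K, hKA, hKc, C, hC0, hw⟩ := exists_compact_weights hA'm hA'01 hs0 hs1.le hz
  -- the weights
  set C0 : ℝ := max C 1 with hC0'
  have hC01 : 1 ≤ C0 := le_max_right _ _
  obtain ⟨m, rfl⟩ : ∃ m, n = m + 2 := ⟨n - 2, by omega⟩
  have hcast : ((m + 2 : ℕ) : ℝ) = (m : ℝ) + 2 := by push_cast; ring
  have hW : ∀ N : ℕ, ∃ w : ℕ → ℝ, Frost (2 ^ N) C0 s w ∧ ∑ i ∈ range (2 ^ N), w i = 1 ∧
      ∀ i, w i ≠ 0 → ∃ a ∈ K, |a - (i : ℝ) / 2 ^ N| ≤ 1 / 2 ^ N := by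
    intro N
    obtain ⟨w, h0, h1, h2, h3⟩ := hw N
    refine ⟨w, ⟨h0, h2.le, ?_⟩, h2, fun i hi => (h1 i hi).2⟩
    intro k L hL
    refine (h3 k L hL).trans ?_
    push_cast
    apply mul_le_mul_of_nonneg_right (le_max_left _ _)
    positivity
  obtain ⟨θ, u, x0, hx0⟩ := interior_of_weights (m := m) hs0 hs1 hC01 (by
      rw [← hcast, hns]
      linarith) (by
      have h1 : (m : ℝ) * s ≤ ((m + 2 : ℕ) : ℝ) * s := by
        apply mul_le_mul_of_nonneg_right _ hs0.le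
        rw [hcast]
        linarith
      rw [hns] at h1
      linarith) hKc hW
  obtain ⟨r, hr, hball⟩ := Metric.mem_nhds_iff.1 (mem_interior_iff_mem_nhds.1 hx0)
  -- dilations and translation
  set t : ℕ → ℝ := fun i => if i = 2 then Real.exp θ else
    if h : i - 3 < m then u ⟨i - 3, h⟩ else 0 with ht
  set τ : ℝ := z * (1 + Real.exp θ + ∑ j, u j) with hτ
  refine ⟨t, x0 - r + τ, x0 + r + τ, by linarith, ?_⟩
  intro x hx
  have hxb : x - τ ∈ Metric.ball x0 r := by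
    rw [Metric.mem_ball, Real.dist_eq, abs_lt]
    constructor <;> linarith [hx.1, hx.2]
  obtain ⟨a0, ha0, a1, ha1, b, hb, hxe⟩ := hball hxb
  refine ⟨fun i => if i = 2 then a1 + z else
    if h : 3 ≤ i ∧ i - 3 < m then b ⟨i - 3, h.2⟩ + z else a0 + z, ?_, ?_⟩
  · intro i
    simp only
    split_ifs with h1 h2
    · exact (hKA ha1).2
    · exact (hKA (hb _)).2
    · exact (hKA ha0).2
  · rw [sum_Icc_eq]
    simp only [ht]
    have h1 : ∀ j : Fin m, ((j : ℕ) + 3) - 3 = j := fun j => by omega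
    have h2 : ∀ j : Fin m, ¬ ((j : ℕ) + 3 = 2) := fun j => by omega
    have h3 : ∀ j : Fin m, ((j : ℕ) + 3) - 3 < m := fun j => by
      rw [h1]
      exact j.2
    have h4 : ∀ j : Fin m, (if (j : ℕ) + 3 = 2 then Real.exp θ else
        if h : (j : ℕ) + 3 - 3 < m then u ⟨(j : ℕ) + 3 - 3, h⟩ else 0) *
        (if (j : ℕ) + 3 = 2 then a1 + (z : ℝ) else
        if h : 3 ≤ (j : ℕ) + 3 ∧ (j : ℕ) + 3 - 3 < m then b ⟨(j : ℕ) + 3 - 3, h.2⟩ + z
          else a0 + z) = u j * (b j + z) := by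
      intro j
      rw [if_neg (h2 j), dif_pos (h3 j), if_neg (h2 j), dif_pos ⟨by omega, h3 j⟩]
      simp only [Nat.add_sub_cancel, Fin.eta]
    rw [Finset.sum_congr rfl fun j _ => h4 j]
    have h5 : ∑ j, u j * (b j + (z : ℝ)) = ∑ j, u j * b j + z * ∑ j, u j := by
      rw [Finset.mul_sum, ← Finset.sum_add_distrib]
      refine Finset.sum_congr rfl fun j _ => ?_
      ring
    rw [h5]
    have h6 : x = (x - τ) + τ := by ring
    rw [h6, hxe, hτ]
    norm_num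
    ring

end Pool.Agent.Results.MP_e5d0a4_an.DilatedSumsets
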